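import Mathlib

/-!
# Theorem K23, the end: a hyperbolic pair for the rescaled form `Q = a b`

`b` is the (primitive, integer valued) Beauville-Bogomolov form, `Q = a b` the rescaled form, which is
integral and even. Steps (12), (13): the lattice `x^⊥ / x` of the fibration is the lattice of the classes
of degree zero on the K3 surface, so two classes `l`, `m` with `Q(l) = Q(m) = 0`, `Q(l,m) = 1` exist;
then `a = 1`, so the Fujiki constant `3 a^2` is `3` and `b` is even.
-/

namespace Pool.Agent.H31.KT

/-- Lifting a hyperbolic pair of a quotient lattice. -/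
theorem exists_pair {Lam K : Type*} (Q : Lam → Lam → ℤ) (L1 : Set Lam) (form : K → K → ℤ)
    (D : Lam → K) (onto : ∀ u, ∃ x ∈ L1, D x = u)
    (hform : ∀ x ∈ L1, ∀ y ∈ L1, Q x y = form (D x) (D y))
    (hyp : ∃ u w, form u u = 0 ∧ form w w = 0 ∧ form u w = 1) :
    ∃ l m, Q l l = 0 ∧ Q m m = 0 ∧ Q l m = 1 := by
  obtain ⟨u, w, hu, hw, huw⟩ := hyp
  obtain ⟨l, hl, rfl⟩ := onto u
  obtain ⟨m, hm, rfl⟩ := onto w
  exact ⟨l, m, by rw [hform l hl l hl, hu], by rw [hform m hm m hm, hw], by rw [hform l hl m hm, huw]⟩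

/-- Step (12): the form on the classes which are trivial on the fibres. `F a b c d` is the integral of
the product of four classes, `kx` the class of the pull back of a line, `k y` the multiple of the
principal polarisation of the fibre given by the class `y`. -/
theorem form_eq {Lam : Type*} (Q : Lam → Lam → ℤ) (F : Lam → Lam → Lam → Lam → ℤ)
    (fujiki : ∀ a b c d, F a b c d = Q a b * Q c d + Q a c * Q b d + Q a d * Q b c)
    (kx : Lam) (b c y : Lam) (hb : Q kx b = 0) (hc : Q kx c = 0) (hy : Q kx y ≠ 0) (e : ℤ)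
    (leray : F kx b c y = Q kx y * e) : Q b c = e := by
  rw [fujiki, hb, hc, zero_mul, zero_mul, zero_add, zero_add] at leray
  exact mul_left_cancel₀ hy leray

/-- **The end of the proof.** A primitive form `b` a positive rational multiple `Q = a b` of which is
integral and takes the value one is equal to `Q`. -/
theorem scale_eq_one {Lam : Type*} (b Q : Lam → Lam → ℤ)
    (prim : ∀ d : ℕ, (∀ x y, (d : ℤ) ∣ b x y) → d = 1) (a : ℚ) (ha : 0 < a)
    (hQ : ∀ x y, (Q x y : ℚ) = a * b x y) (l m : Lam) (hlm : Q l m = 1) :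
    a = 1 ∧ ∀ x y, b x y = Q x y := by
  have h1 : a * (b l m : ℚ) = 1 := by
    rw [← hQ, hlm]
    norm_num
  have hpos : 0 < b l m := by
    have h2 : (0 : ℚ) < b l m := by
      by_contra h
      push Not at h
      have := mul_nonpos_of_nonneg_of_nonpos ha.le h
      rw [h1] at this
      linarith
    exact_mod_cast h2
  have hb : ∀ x y, b x y = b l m * Q x y := by
    intro x y
    have h3 : (b x y : ℚ) = (b l m : ℚ) * (Q x y : ℚ) := by
      rw [hQ, ← mul_assoc, mul_comm (b l m : ℚ) a, h1, one_mul]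
    exact_mod_cast h3
  have h4 : (b l m).toNat = 1 := by
    refine prim _ fun x y => ?_
    rw [Int.toNat_of_nonneg hpos.le, hb x y]
    exact dvd_mul_right _ _
  have h5 : b l m = 1 := by
    have := Int.toNat_of_nonneg hpos.le
    rw [h4] at this
    exact_mod_cast this.symm
  refine ⟨?_, fun x y => by rw [hb, h5, one_mul]⟩
  rw [h5] at h1
  simpa using h1

/-- The conclusion on the problem: the Fujiki constant is three and the form is even. -/
theorem parity {Lam : Type*} (b Q : Lam → Lam → ℤ)
    (prim : ∀ d : ℕ, (∀ x y, (d : ℤ) ∣ b x y) → d = 1) (a f : ℚ) (ha : 0 < a) (hf : f = 3 * a ^ 2)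
    (hQ : ∀ x y, (Q x y : ℚ) = a * b x y) (even : ∀ x, Even (Q x x))
    (pair : ∃ l m, Q l l = 0 ∧ Q m m = 0 ∧ Q l m = 1) : f = 3 ∧ ∀ x, Even (b x x) := by
  obtain ⟨l, m, -, -, hlm⟩ := pair
  obtain ⟨h1, h2⟩ := scale_eq_one b Q prim a ha hQ l m hlm
  refine ⟨by rw [hf, h1]; norm_num, fun x => by rw [h2]; exact even x⟩

end Pool.Agent.H31.KT
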