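import Mathlib

/-!
# Theorem K23, step (10): the isogeny to the principally polarised fibration is an isomorphism

`H' = ℤ^4` with a unimodular form, `H` a sublattice with quotient `(ℤ/t)^2`, both stable under a group
which contains the transvections `x ↦ x + E(v_i, x) v_i` of conjugate vectors `v_i` generating `H'`.
Then `t = 1`.
-/

namespace Pool.Agent.H31.KT

/-- **Step (10).** -/
theorem t_eq_one (t : ℕ) (E : (Fin 4 → ℤ) → (Fin 4 → ℤ) → ℤ)
    (E_add_left : ∀ x y z, E (x + y) z = E x z + E y z)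
    (E_unim : ∀ p : ℕ, p.Prime → ∀ x, (∀ y, (p : ℤ) ∣ E y x) → ∃ z, x = (p : ℤ) • z)
    (H : AddSubgroup (Fin 4 → ℤ))
    (quot : Nonempty (((Fin 4 → ℤ) ⧸ H) ≃+ (Fin 2 → ZMod t)))
    {ι Γ : Type*} (v : ι → Fin 4 → ℤ) (gen : AddSubgroup.closure (Set.range v) = ⊤)
    (act : Γ → (Fin 4 → ℤ) →+ (Fin 4 → ℤ)) (stab : ∀ g, ∀ x ∈ H, act g x ∈ H)
    (transv : ∀ i, ∃ g, ∀ x, act g x = x + E (v i) x • v i)
    (conj : ∀ i j, ∃ g, act g (v i) = v j ∨ act g (v i) = - v j) : t = 1 := by
  classical
  obtain ⟨q⟩ := quot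
  by_contra ht
  obtain ⟨p, hp, hpt⟩ := Nat.exists_prime_and_dvd ht
  have _ : Fact p.Prime := ⟨hp⟩
  -- additivity of the form
  have E_zero_left : ∀ z, E 0 z = 0 := by
    intro z
    have h := E_add_left 0 0 z
    rw [add_zero] at h
    linarith
  have E_neg_left : ∀ x z, E (-x) z = - E x z := by
    intro x z
    have h := E_add_left x (-x) z
    rw [add_neg_cancel, E_zero_left] at h
    linarith
  -- the lattice `H + p H'`
  let M : AddSubgroup (Fin 4 → ℤ) := H ⊔ (zsmulAddGroupHom (p : ℤ)).range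
  have hpM : ∀ x : Fin 4 → ℤ, (p : ℤ) • x ∈ M := fun x =>
    AddSubgroup.mem_sup_right ⟨x, rfl⟩
  have hHM : ∀ x ∈ H, x ∈ M := fun x hx => AddSubgroup.mem_sup_left hx
  have hstab : ∀ g, ∀ x ∈ M, act g x ∈ M := by
    intro g x hx
    obtain ⟨y, hy, z, ⟨w, hw⟩, rfl⟩ := AddSubgroup.mem_sup.1 hx
    rw [map_add]
    refine M.add_mem (hHM _ (stab g y hy)) ?_
    have hw' : (p : ℤ) • w = z := hw
    rw [← hw', map_zsmul]
    exact hpM _
  have hsm : ∀ (c : ℤ) (x : Fin 4 → ℤ), ¬ (p : ℤ) ∣ c → c • x ∈ M → x ∈ M := by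
    intro c x hc hx
    have hcop : IsCoprime c (p : ℤ) :=
      ((Prime.coprime_iff_not_dvd (Nat.prime_iff_prime_int.1 hp)).2 hc).symm
    obtain ⟨a, b, hab⟩ := hcop
    have h1 : x = a • (c • x) + (p : ℤ) • (b • x) := by
      rw [smul_smul, smul_smul, ← add_smul, mul_comm (p : ℤ) b, hab, one_smul]
    rw [h1]
    exact M.add_mem (M.zsmul_mem hx a) (hpM _)
  have hstep : ∀ i, v i ∈ M ∨ ∀ x ∈ M, (p : ℤ) ∣ E (v i) x := by
    intro i
    by_cases h : ∀ x ∈ M, (p : ℤ) ∣ E (v i) x
    · exact Or.inr h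
    · push Not at h
      obtain ⟨x, hx, hE⟩ := h
      refine Or.inl (hsm _ _ hE ?_)
      obtain ⟨g, hg⟩ := transv i
      have h1 := M.sub_mem (hstab g x hx) hx
      rw [hg, add_sub_cancel_left] at h1
      exact h1
  by_cases hex : ∃ i, v i ∈ M
  · -- all vectors are in `M`, so `M` is everything
    obtain ⟨i, hi⟩ := hex
    have hall : ∀ j, v j ∈ M := by
      intro j
      obtain ⟨g, hg | hg⟩ := conj i j
      · rw [← hg]
        exact hstab g _ hi
      · have h1 := hstab g _ hi
        rw [hg] at h1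
        exact neg_mem_iff.1 h1
    have htop : ∀ x, x ∈ M := by
      intro x
      have h1 : AddSubgroup.closure (Set.range v) ≤ M := by
        rw [AddSubgroup.closure_le]
        rintro _ ⟨j, rfl⟩
        exact hall j
      rw [gen] at h1
      exact h1 (AddSubgroup.mem_top x)
    -- the first coordinate vector of the quotient is not divisible by `p`
    obtain ⟨x, hx⟩ := QuotientAddGroup.mk_surjective (q.symm (fun _ => (1 : ZMod t)))
    obtain ⟨y, hy, z, ⟨w, hw⟩, hyz⟩ := AddSubgroup.mem_sup.1 (htop x)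
    have hw' : (p : ℤ) • w = z := hw
    have h1 : (fun _ => (1 : ZMod t)) = (p : ℤ) • q (QuotientAddGroup.mk w : (Fin 4 → ℤ) ⧸ H) := by
      rw [← map_zsmul]
      rw [← q.apply_symm_apply (fun _ => (1 : ZMod t)), ← hx]
      congr 1
      rw [← hyz, QuotientAddGroup.mk_add, (QuotientAddGroup.eq_zero_iff y).2 hy, zero_add, ← hw']
      rfl
    have h2 : (1 : ZMod t) = (p : ℤ) • (q (QuotientAddGroup.mk w : (Fin 4 → ℤ) ⧸ H) 0) := by
      have := congrFun h1 0
      simpa using this
    have h3 := congrArg (ZMod.castHom hpt (ZMod p)) h2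
    rw [map_one, map_zsmul, zsmul_eq_mul] at h3
    have h4 : ((p : ℤ) : ZMod p) = 0 := by simp
    rw [h4, zero_mul] at h3
    exact one_ne_zero h3
  · -- all vectors are orthogonal to `M`
    push Not at hex
    have hort : ∀ y, ∀ x ∈ M, (p : ℤ) ∣ E y x := by
      intro y x hx
      have h1 : y ∈ AddSubgroup.closure (Set.range v) := by
        rw [gen]
        exact AddSubgroup.mem_top y
      induction h1 using AddSubgroup.closure_induction with
      | mem y hy =>
        obtain ⟨i, rfl⟩ := hy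
        exact (hstep i).resolve_left (hex i) x hx
      | zero => rw [E_zero_left]; exact dvd_zero _
      | add a b _ _ ha hb => rw [E_add_left]; exact dvd_add ha hb
      | neg a _ ha => rw [E_neg_left]; exact (dvd_neg).2 ha
    have hdiv : ∀ x ∈ H, ∃ z, x = (p : ℤ) • z := fun x hx =>
      E_unim p hp x fun y => hort y x (hHM x hx)
    -- the reduction modulo `p`
    let r : (Fin 4 → ℤ) →+ (Fin 4 → ZMod p) :=
      { toFun := fun x i => (x i : ZMod p)
        map_zero' := by funext i; simp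
        map_add' := fun x y => by funext i; simp }
    have hr : ∀ x ∈ H, r x = 0 := by
      intro x hx
      obtain ⟨z, rfl⟩ := hdiv x hx
      funext i
      simp [r]
    obtain ⟨a, ha⟩ := QuotientAddGroup.mk_surjective (q.symm (Pi.single 0 (1 : ZMod t)))
    obtain ⟨b, hb⟩ := QuotientAddGroup.mk_surjective (q.symm (Pi.single 1 (1 : ZMod t)))
    have hspan : Submodule.span (ZMod p) (Set.range ![r a, r b]) = ⊤ := by
      rw [eq_top_iff]
      intro y _
      -- lift y
      obtain ⟨x, hx⟩ : ∃ x, r x = y := by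
        refine ⟨fun i => ((y i).val : ℤ), ?_⟩
        funext i
        simp [r]
      -- coordinates in the quotient
      obtain ⟨m, hm⟩ : ∃ m : ℤ, (m : ZMod t) = q (QuotientAddGroup.mk x : (Fin 4 → ℤ) ⧸ H) 0 :=
        ZMod.intCast_surjective _
      obtain ⟨n, hn⟩ : ∃ n : ℤ, (n : ZMod t) = q (QuotientAddGroup.mk x : (Fin 4 → ℤ) ⧸ H) 1 :=
        ZMod.intCast_surjective _
      have hmem : x - (m • a + n • b) ∈ H := by
        rw [← QuotientAddGroup.eq_zero_iff]
        have h1 : q (QuotientAddGroup.mk (x - (m • a + n • b)) : (Fin 4 → ℤ) ⧸ H) = 0 := by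
          rw [QuotientAddGroup.mk_sub, QuotientAddGroup.mk_add, QuotientAddGroup.mk_zsmul,
            QuotientAddGroup.mk_zsmul, ha, hb, map_sub, map_add, map_zsmul, map_zsmul,
            q.apply_symm_apply, q.apply_symm_apply]
          funext i
          fin_cases i
          · simp [← hm]
          · simp [← hn]
        rw [← q.map_zero] at h1
        exact q.injective h1
      have h2 := hr _ hmem
      rw [map_sub, map_add, map_zsmul, map_zsmul, hx, sub_eq_zero] at h2
      rw [h2]
      refine Submodule.add_mem _ ?_ ?_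
      · rw [← Int.cast_smul_eq_zsmul (ZMod p)]
        exact Submodule.smul_mem _ _ (Submodule.subset_span ⟨0, rfl⟩)
      · rw [← Int.cast_smul_eq_zsmul (ZMod p)]
        exact Submodule.smul_mem _ _ (Submodule.subset_span ⟨1, rfl⟩)
    have h5 := finrank_range_le_card (R := ZMod p) ![r a, r b]
    rw [Set.finrank, hspan, finrank_top, Module.finrank_fin_fun] at h5
    simp at h5

end Pool.Agent.H31.KT
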